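import Pool.Agent.X19.RS.Stm

/-!
# RS_DET2: the duality bound for `del`
-/

set_option autoImplicit false

open MeasureTheory ProbabilityTheory Filter Topology
open scoped ENNReal Matrix

namespace Pool.Agent.X327.RS

open Pool.Agent.X19.SS Pool.Agent.X19.RS

variable {K : Type} [RCLike K]

theorem nsq_eq {ι : Type} [Fintype ι] (x : ι → K) :
    nsq x = ENNReal.ofReal (∑ i, ‖x i‖ ^ 2) := by
  rw [nsq, ENNReal.ofReal_sum_of_nonneg (fun i _ => by positivity)]
  refine Finset.sum_congr rfl fun i _ => ?_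
  rw [ENNReal.ofReal_pow (norm_nonneg _), ofReal_norm]

theorem row (d e q m l : ℕ) (s : ℝ) (G : Matrix (Fin (q + m + e)) (Fin l) K) (c : Fin l → K)
    (i : Fin d) (a : Fin (q + m)) (h : i.val = a.val) :
    ((Sg K d (q + m + e) q (q + m) s * G) *ᵥ c) i =
      (if a.val < q then (s : K) else 1) * ∑ b, G (Fin.castAdd e a) b * c b := by
  rw [← Matrix.mulVec_mulVec]
  change ∑ b, Sg K d (q + m + e) q (q + m) s i b * (G *ᵥ c) b = _
  have ha := a.isLt
  rw [Finset.sum_eq_single (Fin.castAdd e a)]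
  · simp [Sg, h, Matrix.mulVec, dotProduct]
  · intro b _ hb
    have h1 : ¬ (i.val = b.val) := by
      intro h2; apply hb; ext; simp; omega
    simp [Sg, h1]
  · simp

theorem core (q m : ℕ) (s : ℝ) (hs : 1 ≤ s) (t G : Fin q → K) (u H : Fin m → K) (j : Fin q)
    (tj : t j = 1) (h0 : ∑ i, t i * G i + ∑ k, u k * H k = 0) :
    1 ≤ (∑ i, ‖t i‖ ^ 2 + s ^ 2 * ∑ k, ‖u k‖ ^ 2) *
      (∑ i, ‖(if i = j then (1 : K) else 0) - (s : K) * G i‖ ^ 2 + ∑ k, ‖H k‖ ^ 2) := by
  have key : ∑ i, t i * ((if i = j then (1 : K) else 0) - (s : K) * G i) +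
      ∑ k, ((s : K) * u k) * (-H k) = 1 := by
    have e1 : ∑ i, t i * ((if i = j then (1 : K) else 0) - (s : K) * G i) =
        1 - (s : K) * ∑ i, t i * G i := by
      rw [Finset.mul_sum]
      have e2 : ∑ i, t i * (if i = j then (1 : K) else 0) = 1 := by
        rw [Finset.sum_eq_single j]
        · simp [tj]
        · intro b _ hb; simp [hb]
        · simp
      rw [← e2, ← Finset.sum_sub_distrib]
      refine Finset.sum_congr rfl fun i _ => ?_
      rw [e2]; ring
    have e3 : ∑ k, ((s : K) * u k) * (-H k) = - ((s : K) * ∑ k, u k * H k) := by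
      rw [Finset.mul_sum, ← Finset.sum_neg_distrib]
      refine Finset.sum_congr rfl fun i _ => ?_
      ring
    rw [e1, e3]
    have e4 : (s : K) * (∑ i, t i * G i + ∑ k, u k * H k) = 0 := by rw [h0, mul_zero]
    linear_combination -e4
  have n1 : 1 ≤ ∑ i, ‖t i‖ * ‖(if i = j then (1 : K) else 0) - (s : K) * G i‖ +
      ∑ k, (s * ‖u k‖) * ‖H k‖ := by
    calc (1 : ℝ) = ‖(1 : K)‖ := by simp
      _ = ‖∑ i, t i * ((if i = j then (1 : K) else 0) - (s : K) * G i) +
          ∑ k, ((s : K) * u k) * (-H k)‖ := by rw [key]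
      _ ≤ _ := (norm_add_le _ _).trans (add_le_add
          ((norm_sum_le _ _).trans (Finset.sum_le_sum fun i _ => (norm_mul _ _).le))
          ((norm_sum_le _ _).trans (Finset.sum_le_sum fun i _ => by
            rw [norm_mul, norm_mul, norm_neg, RCLike.norm_ofReal, abs_of_nonneg (by linarith)])))
  have cs := Finset.sum_mul_sq_le_sq_mul_sq (Finset.univ : Finset (Fin q ⊕ Fin m))
    (Sum.elim (fun i => ‖t i‖) (fun k => s * ‖u k‖))
    (Sum.elim (fun i => ‖(if i = j then (1 : K) else 0) - (s : K) * G i‖) (fun k => ‖H k‖))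
  rw [Fintype.sum_sum_type, Fintype.sum_sum_type, Fintype.sum_sum_type] at cs
  simp only [Sum.elim_inl, Sum.elim_inr] at cs
  have e5 : ∑ k, (s * ‖u k‖) ^ 2 = s ^ 2 * ∑ k, ‖u k‖ ^ 2 := by
    rw [Finset.mul_sum]; exact Finset.sum_congr rfl fun i _ => by ring
  rw [e5] at cs
  refine le_trans ?_ cs
  nlinarith

theorem t_DET2 : S_DET2 := by
  intro K _ d e q m l hd s hs G j
  unfold kap del
  refine iSup_le fun t => iSup_le fun u => iSup_le fun tj => iSup_le fun h0 => le_iInf fun c => ?_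
  set D : Fin d → K := Pi.single (Fin.castLE hd (Fin.castAdd m j)) 1 -
    (Sg K d (q + m + e) q (q + m) s * G) *ᵥ c with hD
  let gc : Fin q → K := fun i => ∑ b, G (Fin.castAdd e (Fin.castAdd m i)) b * c b
  let hc : Fin m → K := fun k => ∑ b, G (Fin.castAdd e (Fin.natAdd q k)) b * c b
  have h1 : ∑ i, t i * gc i + ∑ k, u k * hc k = 0 := by
    have h2 : ∑ b, (∑ i, t i • (fun i : Fin q => G (Fin.castAdd e (Fin.castAdd m i))) i +
        ∑ k, u k • (fun k : Fin m => G (Fin.castAdd e (Fin.natAdd q k))) k) b * c b = 0 := by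
      rw [h0]; simp
    rw [← h2]
    simp only [Pi.add_apply, Finset.sum_apply, Pi.smul_apply, smul_eq_mul, add_mul,
      Finset.sum_add_distrib, Finset.sum_mul, gc, hc, Finset.mul_sum]
    congr 1
    · rw [Finset.sum_comm]
      exact Finset.sum_congr rfl fun _ _ => Finset.sum_congr rfl fun _ _ => by ring
    · rw [Finset.sum_comm]
      exact Finset.sum_congr rfl fun _ _ => Finset.sum_congr rfl fun _ _ => by ring
  have hc1 := core q m s hs t gc u hc j tj h1
  have Da : ∀ i : Fin q, D (Fin.castLE hd (Fin.castAdd m i)) =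
      (if i = j then (1 : K) else 0) - (s : K) * gc i := by
    intro i
    have hr := row d e q m l s G c (Fin.castLE hd (Fin.castAdd m i)) (Fin.castAdd m i) rfl
    rw [hD, Pi.sub_apply, hr]
    have hi : (Fin.castAdd m i).val < q := by simp
    rw [if_pos hi, Pi.single_apply]
    congr 1
    by_cases hij : i = j
    · subst hij; simp
    · rw [if_neg hij, if_neg]
      intro h3
      apply hij
      have := congrArg Fin.val h3
      ext; simpa using this
  have Db : ∀ k : Fin m, D (Fin.castLE hd (Fin.natAdd q k)) = - hc k := by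
    intro k
    have hr := row d e q m l s G c (Fin.castLE hd (Fin.natAdd q k)) (Fin.natAdd q k) rfl
    rw [hD, Pi.sub_apply, hr]
    have hi : ¬ (Fin.natAdd q k).val < q := by simp
    rw [if_neg hi, Pi.single_apply, if_neg]
    · simp [hc]
    · intro h3
      have := congrArg Fin.val h3
      simp at this
      have := j.isLt
      omega
  have le1 : ∑ i, ‖(if i = j then (1 : K) else 0) - (s : K) * gc i‖ ^ 2 + ∑ k, ‖hc k‖ ^ 2 ≤
      ∑ i, ‖D i‖ ^ 2 := by
    have e1 : ∑ i, ‖(if i = j then (1 : K) else 0) - (s : K) * gc i‖ ^ 2 + ∑ k, ‖hc k‖ ^ 2 =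
        ∑ a : Fin (q + m), ‖D (Fin.castLE hd a)‖ ^ 2 := by
      rw [Fin.sum_univ_add]
      congr 1
      · exact Finset.sum_congr rfl fun i _ => by rw [Da]
      · exact Finset.sum_congr rfl fun i _ => by rw [Db, norm_neg]
    rw [e1]
    have e2 : ∑ a : Fin (q + m), ‖D (Fin.castLE hd a)‖ ^ 2 =
        ∑ i ∈ Finset.univ.map (Fin.castLEEmb hd), ‖D i‖ ^ 2 := by
      rw [Finset.sum_map]; rfl
    rw [e2]
    exact Finset.sum_le_sum_of_subset_of_nonneg (Finset.subset_univ _) fun _ _ _ => by positivity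
  have Tpos : 0 < ∑ i, ‖t i‖ ^ 2 + s ^ 2 * ∑ k, ‖u k‖ ^ 2 := by
    have : ‖t j‖ ^ 2 ≤ ∑ i, ‖t i‖ ^ 2 :=
      Finset.single_le_sum (f := fun i => ‖t i‖ ^ 2) (fun _ _ => by positivity) (Finset.mem_univ j)
    rw [tj] at this
    have h5 : 0 ≤ s ^ 2 * ∑ k, ‖u k‖ ^ 2 := by positivity
    have h6 : ‖(1 : K)‖ = 1 := by simp
    rw [h6] at this
    linarith
  have e6 : nsq t + ENNReal.ofReal (s ^ 2) * nsq u =
      ENNReal.ofReal (∑ i, ‖t i‖ ^ 2 + s ^ 2 * ∑ k, ‖u k‖ ^ 2) := by
    rw [nsq_eq, nsq_eq, ← ENNReal.ofReal_mul (by positivity), ← ENNReal.ofReal_add (by positivity)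
      (by positivity)]
  rw [e6, nsq_eq D, ← ENNReal.ofReal_inv_of_pos Tpos]
  apply ENNReal.ofReal_le_ofReal
  rw [inv_le_iff_one_le_mul₀' Tpos]
  exact hc1.trans (mul_le_mul_of_nonneg_left le1 Tpos.le)

end Pool.Agent.X327.RS
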